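import Pool.Agent.H40.CM.D4

/-!
# Cycles with linearly many chords in graphs of minimum degree three and bounded maximum degree

For every `Δ ≥ 3` there are constants `ε, c > 0` such that the following holds.  Let `G` be a
finite graph, `H` a subgraph of `G` and `W` a nonempty set of vertices containing all non-isolated
vertices of `H`, such that the number of vertices of `W` of `H`-degree less than three plus the sum
of the `H`-degrees larger than `Δ` is at most `ε |W|`.  Then `G` contains a cycle `C` with at least
`c |C|` chords.

In particular (`H = G`, `W = V`) every finite graph with minimum degree at least three and maximum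
degree at most `Δ` contains a cycle `C` with at least `c(Δ) |C|` chords.
-/

namespace Pool.Agent.Results.MP_9cdbe4_co.BoundedDegree

open SimpleGraph

universe u

theorem result (Δ : ℕ) (hΔ : 3 ≤ Δ) : ∃ ε c : ℝ, 0 < ε ∧ 0 < c ∧
    ∀ (V : Type u) [Finite V] (G H : SimpleGraph V) (W : Set V), H ≤ G → W.Nonempty →
      H.support ⊆ W →
      (({v | v ∈ W ∧ (H.neighborSet v).ncard < 3} : Set V).ncard : ℝ) +
        ∑ᶠ v ∈ {v | Δ < (H.neighborSet v).ncard}, ((H.neighborSet v).ncard : ℝ) ≤
          ε * (W.ncard : ℝ) →
      ∃ (u : V) (C : G.Walk u u), C.IsCycle ∧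
        c * (C.length : ℝ) ≤
          (({e | e ∈ G.edgeSet ∧ e ∉ C.edges ∧ ∀ z ∈ e, z ∈ C.support} :
            Set (Sym2 V)).ncard : ℝ) :=
  Pool.Agent.H40.CM.near_delta Δ hΔ

end Pool.Agent.Results.MP_9cdbe4_co.BoundedDegree
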