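import Mathlib

/-!
# Cycles with linearly many chords in graphs covered by boundedly many paths

Let `P 1, ..., P p` be pairwise disjoint paths of a graph `G` and let `U` be the union of their
vertex sets.  If all but at most `|U| / (500 p ^ 2)` vertices of `U` have at least three
neighbours in `U`, then `G` has a cycle `C` of some length `ℓ` with at least `ℓ / (500 p ^ 2)`
chords.  In particular, for every fixed `p`, the statement asked for holds for all graphs of
minimum degree at least three whose vertex set can be covered by `p` disjoint paths.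
-/

namespace Pool.Agent.Results.MP_9cdbe4_co.BoundedPathCover

open SimpleGraph

variable {V : Type*}

/-- The chords of a closed walk `C` in `G`: the edges of `G` which are not edges of `C` but both
of whose ends lie on `C`. -/
def chords (G : SimpleGraph V) {u : V} (C : G.Walk u u) : Set (Sym2 V) :=
  {e | e ∈ G.edgeSet ∧ e ∉ C.edges ∧ ∀ z ∈ e, z ∈ C.support}

lemma chords_finite (G : SimpleGraph V) {u : V} (C : G.Walk u u) : (chords G C).Finite := by
  classical
  refine ((C.support.toFinset.sym2).finite_toSet).subset ?_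
  rintro e ⟨-, -, h⟩
  simp only [Finset.mem_coe, Finset.mem_sym2_iff, List.mem_toFinset]
  exact h

/-! ### Building cycles from sequences -/

/-- A sequence of consecutively adjacent vertices gives a walk. -/
lemma exists_walk (G : SimpleGraph V) (c : ℕ → V) (k : ℕ)
    (hadj : ∀ i < k, G.Adj (c i) (c (i + 1))) :
    ∃ W : G.Walk (c 0) (c k), W.length = k ∧ W.support = (List.range (k + 1)).map c ∧
      ∀ e ∈ W.edges, ∃ i < k, e = s(c i, c (i + 1)) := by
  induction k with
  | zero => exact ⟨Walk.nil, rfl, by simp, by simp⟩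
  | succ k ih =>
    obtain ⟨W, hl, hs, he⟩ := ih (fun i hi => hadj i (by omega))
    refine ⟨W.concat (hadj k (by omega)), by simp [hl], ?_, ?_⟩
    · rw [Walk.support_concat, hs, List.range_succ (n := k + 1), List.map_append]
      simp
    · intro e hmem
      rw [Walk.edges_concat] at hmem
      simp only [List.concat_eq_append, List.mem_append, List.mem_singleton] at hmem
      rcases hmem with h | h
      · obtain ⟨i, hi, rfl⟩ := he e h
        exact ⟨i, by omega, rfl⟩
      · exact ⟨k, by omega, h⟩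

/-- A cyclic sequence of distinct consecutively adjacent vertices gives a cycle whose chords
include every prescribed set of edges avoiding the consecutive pairs. -/
lemma exists_cycle (G : SimpleGraph V) (c : ℕ → V) (k : ℕ) (hk : 2 ≤ k)
    (hinj : ∀ i ≤ k, ∀ j ≤ k, c i = c j → i = j)
    (hadj : ∀ i < k, G.Adj (c i) (c (i + 1))) (hclose : G.Adj (c k) (c 0))
    (T : Finset (Sym2 V))
    (hT : ∀ e ∈ T, e ∈ G.edgeSet ∧ (∀ z ∈ e, ∃ i ≤ k, c i = z) ∧
      (∀ i < k, e ≠ s(c i, c (i + 1))) ∧ e ≠ s(c k, c 0)) :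
    ∃ (u : V) (C : G.Walk u u), C.IsCycle ∧ C.length = k + 1 ∧ T.card ≤ (chords G C).ncard := by
  classical
  obtain ⟨W, hl, hs, he⟩ := exists_walk G c k hadj
  have hpath : W.IsPath := by
    rw [Walk.isPath_def, hs]
    refine List.Nodup.map_on ?_ List.nodup_range
    intro i hi j hj hij
    rw [List.mem_range] at hi hj
    exact hinj i (by omega) j (by omega) hij
  refine ⟨c k, Walk.cons hclose W, ?_, by simp [hl], ?_⟩
  · rw [Walk.cons_isCycle_iff]
    refine ⟨hpath, fun hmem => ?_⟩
    obtain ⟨i, hi, hE⟩ := he _ hmem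
    rw [Sym2.eq_iff] at hE
    rcases hE with ⟨h1, h2⟩ | ⟨h1, h2⟩
    · have := hinj k le_rfl i (by omega) h1
      omega
    · have e1 := hinj k le_rfl (i + 1) (by omega) h1
      have e2 := hinj 0 (by omega) i (by omega) h2
      omega
  · rw [← Set.ncard_coe_finset T]
    refine Set.ncard_le_ncard ?_ (chords_finite G _)
    intro e heT
    obtain ⟨h1, h2, h3, h4⟩ := hT e heT
    refine ⟨h1, ?_, ?_⟩
    · rw [Walk.edges_cons, List.mem_cons]
      rintro (h | h)
      · exact h4 h
      · obtain ⟨i, hi, hE⟩ := he _ h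
        exact h3 i hi hE
    · intro z hz
      obtain ⟨i, hi, rfl⟩ := h2 z hz
      rw [Walk.support_cons, List.mem_cons, hs]
      right
      exact List.mem_map.2 ⟨i, List.mem_range.2 (by omega), rfl⟩

/-- The hypothesis to be refuted: no cycle is rich in chords. -/
def Poor (G : SimpleGraph V) (K : ℕ) : Prop :=
  ∀ (u : V) (C : G.Walk u u), C.IsCycle → K * (chords G C).ncard < C.length

/-- Positions of a path: distinct vertices, consecutive ones adjacent. -/
structure IsPathSeq (G : SimpleGraph V) (v : ℕ → V) (N : ℕ) : Prop where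
  inj : ∀ i ≤ N, ∀ j ≤ N, v i = v j → i = j
  adj : ∀ i < N, G.Adj (v i) (v (i + 1))

lemma IsPathSeq.reverse {G : SimpleGraph V} {v : ℕ → V} {N : ℕ} (h : IsPathSeq G v N) :
    IsPathSeq G (fun i => v (N - i)) N where
  inj i hi j hj hij := by
    have := h.inj (N - i) (by omega) (N - j) (by omega) hij
    omega
  adj i hi := by
    have h1 := h.adj (N - (i + 1)) (by omega)
    have h2 : N - (i + 1) + 1 = N - i := by omega
    rw [h2] at h1
    exact h1.symm

lemma pair_inj {G : SimpleGraph V} {v : ℕ → V} {N : ℕ} (h : IsPathSeq G v N) {s t s' t' : ℕ}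
    (hst : s < t) (ht : t ≤ N) (hst' : s' < t') (ht' : t' ≤ N)
    (he : s(v s, v t) = s(v s', v t')) : s = s' ∧ t = t' := by
  rw [Sym2.eq_iff] at he
  rcases he with ⟨h1, h2⟩ | ⟨h1, h2⟩
  · exact ⟨h.inj s (by omega) s' (by omega) h1, h.inj t ht t' ht' h2⟩
  · have e1 := h.inj s (by omega) t' ht' h1
    have e2 := h.inj t ht s' (by omega) h2
    omega

/-- Chords inside the cycle formed by a segment of the path and the edge joining its ends. -/
lemma interval_bound {G : SimpleGraph V} {v : ℕ → V} {N K : ℕ} (h : IsPathSeq G v N)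
    (hpoor : Poor G K) {i j : ℕ} (hij : i + 2 ≤ j) (hj : j ≤ N) (hA : G.Adj (v i) (v j))
    (S : Finset (ℕ × ℕ))
    (hS : ∀ p ∈ S, i ≤ p.1 ∧ p.1 + 2 ≤ p.2 ∧ p.2 ≤ j ∧ G.Adj (v p.1) (v p.2) ∧
      ¬ (p.1 = i ∧ p.2 = j)) :
    K * S.card ≤ j - i := by
  classical
  have hcard : (S.image fun p : ℕ × ℕ => s(v p.1, v p.2)).card = S.card := by
    refine Finset.card_image_of_injOn ?_
    intro p hp q hq hpq
    obtain ⟨a1, a2, a3, -, -⟩ := hS p hp
    obtain ⟨b1, b2, b3, -, -⟩ := hS q hq
    obtain ⟨e1, e2⟩ := pair_inj h (by omega) (by omega) (by omega) (by omega) hpq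
    exact Prod.ext e1 e2
  obtain ⟨u, C, hC, hlen, hcount⟩ := exists_cycle G (fun r => v (i + r)) (j - i) (by omega)
    (by
      intro r hr r' hr' hrr
      have := h.inj (i + r) (by omega) (i + r') (by omega) hrr
      omega)
    (by
      intro r hr
      exact h.adj (i + r) (by omega))
    (by
      have : i + (j - i) = j := by omega
      simpa [this] using hA.symm)
    (S.image fun p : ℕ × ℕ => s(v p.1, v p.2))
    (by
      intro e he
      obtain ⟨p, hp, rfl⟩ := Finset.mem_image.1 he
      obtain ⟨a1, a2, a3, a4, a5⟩ := hS p hp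
      refine ⟨a4, ?_, ?_, ?_⟩
      · intro z hz
        rw [Sym2.mem_iff] at hz
        rcases hz with rfl | rfl
        · exact ⟨p.1 - i, by omega, by congr 1; omega⟩
        · exact ⟨p.2 - i, by omega, by congr 1; omega⟩
      · intro r hr hE
        have hE' : s(v p.1, v p.2) = s(v (i + r), v (i + r + 1)) := hE
        obtain ⟨e1, e2⟩ := pair_inj h (by omega) (by omega) (by omega) (by omega) hE'
        omega
      · intro hE
        have hE' : s(v p.1, v p.2) = s(v i, v j) := by
          have : i + (j - i) = j := by omega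
          simp only [this, Nat.add_zero] at hE
          rw [hE, Sym2.eq_swap]
        obtain ⟨e1, e2⟩ := pair_inj h (by omega) (by omega) (by omega) (by omega) hE'
        exact a5 ⟨e1, e2⟩)
  have h1 := hpoor u C hC
  rw [hcard] at hcount
  have h2 := Nat.mul_le_mul_left K hcount
  omega

/-- Chords inside the cycle formed by two crossing edges. -/
lemma crossing_bound {G : SimpleGraph V} {v : ℕ → V} {N K : ℕ} (h : IsPathSeq G v N)
    (hpoor : Poor G K) {a t d F : ℕ} (hat : a < t) (htd : t < d) (hdF : d < F) (hF : F ≤ N)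
    (hA : G.Adj (v a) (v d)) (hB : G.Adj (v t) (v F))
    (S : Finset (ℕ × ℕ))
    (hS : ∀ p ∈ S, a ≤ p.1 ∧ p.1 ≤ t ∧ d ≤ p.2 ∧ p.2 ≤ F ∧ G.Adj (v p.1) (v p.2) ∧
      ¬ (p.1 = a ∧ p.2 = d) ∧ ¬ (p.1 = t ∧ p.2 = F)) :
    K * S.card ≤ (t - a) + (F - d) + 1 := by
  classical
  have hcard : (S.image fun p : ℕ × ℕ => s(v p.1, v p.2)).card = S.card := by
    refine Finset.card_image_of_injOn ?_
    intro p hp q hq hpq
    obtain ⟨a1, a2, a3, a4, -⟩ := hS p hp
    obtain ⟨b1, b2, b3, b4, -⟩ := hS q hq
    obtain ⟨e1, e2⟩ := pair_inj h (by omega) (by omega) (by omega) (by omega) hpq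
    exact Prod.ext e1 e2
  -- the position visited at time `r`
  let q : ℕ → ℕ := fun r => if r ≤ t - a then a + r else F - (r - (t - a) - 1)
  have q1 : ∀ r, r ≤ t - a → q r = a + r := fun r hr => if_pos hr
  have q2 : ∀ r, ¬ r ≤ t - a → q r = F - (r - (t - a) - 1) := fun r hr => if_neg hr
  obtain ⟨u, C, hC, hlen, hcount⟩ := exists_cycle G (fun r => v (q r)) ((t - a) + (F - d) + 1)
    (by omega)
    (by
      intro r hr r' hr' hrr
      have hq : q r ≤ N := by
        by_cases hc : r ≤ t - a
        · rw [q1 r hc]; omega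
        · rw [q2 r hc]; omega
      have hq' : q r' ≤ N := by
        by_cases hc : r' ≤ t - a
        · rw [q1 r' hc]; omega
        · rw [q2 r' hc]; omega
      have hqq := h.inj _ hq _ hq' hrr
      by_cases hc : r ≤ t - a <;> by_cases hc' : r' ≤ t - a
      · rw [q1 r hc, q1 r' hc'] at hqq; omega
      · rw [q1 r hc, q2 r' hc'] at hqq; omega
      · rw [q2 r hc, q1 r' hc'] at hqq; omega
      · rw [q2 r hc, q2 r' hc'] at hqq; omega)
    (by
      intro r hr
      show G.Adj (v (q r)) (v (q (r + 1)))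
      by_cases hc : r + 1 ≤ t - a
      · rw [q1 r (by omega), q1 (r + 1) hc]
        exact h.adj (a + r) (by omega)
      · by_cases hc' : r ≤ t - a
        · rw [q1 r hc', q2 (r + 1) hc]
          have e1 : a + r = t := by omega
          have e2 : F - (r + 1 - (t - a) - 1) = F := by omega
          rw [e1, e2]
          exact hB
        · rw [q2 r hc', q2 (r + 1) hc]
          have e1 : F - (r - (t - a) - 1) = F - (r + 1 - (t - a) - 1) + 1 := by omega
          rw [e1]
          exact (h.adj _ (by omega)).symm)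
    (by
      show G.Adj (v (q ((t - a) + (F - d) + 1))) (v (q 0))
      rw [q2 _ (by omega), q1 0 (by omega)]
      have e1 : F - (t - a + (F - d) + 1 - (t - a) - 1) = d := by omega
      rw [e1, Nat.add_zero]
      exact hA.symm)
    (S.image fun p : ℕ × ℕ => s(v p.1, v p.2))
    (by
      intro e he
      obtain ⟨p, hp, rfl⟩ := Finset.mem_image.1 he
      obtain ⟨a1, a2, a3, a4, a5, a6, a7⟩ := hS p hp
      refine ⟨a5, ?_, ?_, ?_⟩
      · intro z hz
        rw [Sym2.mem_iff] at hz
        rcases hz with rfl | rfl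
        · refine ⟨p.1 - a, by omega, ?_⟩
          show v (q (p.1 - a)) = v p.1
          rw [q1 _ (by omega)]
          congr 1; omega
        · refine ⟨(t - a) + 1 + (F - p.2), by omega, ?_⟩
          show v (q ((t - a) + 1 + (F - p.2))) = v p.2
          rw [q2 _ (by omega)]
          congr 1; omega
      · intro r hr hE
        have hE' : s(v p.1, v p.2) = s(v (q r), v (q (r + 1))) := hE
        by_cases hc : r + 1 ≤ t - a
        · rw [q1 r (by omega), q1 (r + 1) hc] at hE'
          obtain ⟨e1, e2⟩ := pair_inj h (by omega) (by omega) (by omega) (by omega) hE'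
          omega
        · by_cases hc' : r ≤ t - a
          · rw [q1 r hc', q2 (r + 1) hc] at hE'
            obtain ⟨e1, e2⟩ := pair_inj h (by omega) (by omega) (by omega) (by omega) hE'
            omega
          · rw [q2 r hc', q2 (r + 1) hc, Sym2.eq_swap (a := v (F - (r - (t - a) - 1)))] at hE'
            obtain ⟨e1, e2⟩ := pair_inj h (by omega) (by omega) (by omega) (by omega) hE'
            omega
      · intro hE
        have hE' : s(v p.1, v p.2) = s(v (q ((t - a) + (F - d) + 1)), v (q 0)) := hE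
        rw [q2 _ (by omega), q1 0 (by omega)] at hE'
        have e1 : F - (t - a + (F - d) + 1 - (t - a) - 1) = d := by omega
        rw [e1, Nat.add_zero, Sym2.eq_swap (a := v d)] at hE'
        obtain ⟨e1, e2⟩ := pair_inj h (by omega) (by omega) (by omega) (by omega) hE'
        omega)
  have h1 := hpoor u C hC
  rw [hcard] at hcount
  have h2 := Nat.mul_le_mul_left K hcount
  omega

/-! ### Chords of a path meeting its longest chord -/

/-- Chords crossing the chord `(a, d)` to the right. -/
lemma right_bound {G : SimpleGraph V} {v : ℕ → V} {N K : ℕ} (h : IsPathSeq G v N)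
    (hpoor : Poor G K) {a d : ℕ} (had : a + 2 ≤ d) (hA : G.Adj (v a) (v d))
    (R : Finset (ℕ × ℕ))
    (hR : ∀ e ∈ R, a < e.1 ∧ e.1 < d ∧ d < e.2 ∧ e.2 ≤ N ∧ G.Adj (v e.1) (v e.2) ∧
      e.2 - e.1 ≤ d - a) :
    K * R.card ≤ K + 3 * (d - a) := by
  classical
  rcases R.eq_empty_or_nonempty with rfl | hne
  · simp
  obtain ⟨⟨t, F⟩, hp, hFmax⟩ := Finset.exists_max_image R (fun p => p.2) hne
  obtain ⟨hat, htd, hdF, hFN, hB, hsp⟩ := hR _ hp
  simp only at hat htd hdF hFN hB hsp hFmax
  have hsplit : R.card ≤ (R.filter (fun e => t ≤ e.1 ∧ e ≠ (t, F))).card + 1 +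
      (R.filter (fun e => e.1 < t)).card := by
    have hsub : R ⊆ R.filter (fun e => t ≤ e.1 ∧ e ≠ (t, F)) ∪ {(t, F)} ∪
        R.filter (fun e => e.1 < t) := by
      intro s hs
      simp only [Finset.mem_union, Finset.mem_filter, Finset.mem_singleton]
      by_cases h1 : s.1 < t
      · exact Or.inr ⟨hs, h1⟩
      · by_cases h2 : s = (t, F)
        · exact Or.inl (Or.inr h2)
        · exact Or.inl (Or.inl ⟨hs, by omega, h2⟩)
    refine (Finset.card_le_card hsub).trans ((Finset.card_union_le _ _).trans ?_)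
    have := Finset.card_union_le (R.filter (fun e => t ≤ e.1 ∧ e ≠ (t, F))) {(t, F)}
    simp only [Finset.card_singleton] at this
    omega
  have h1 : K * (R.filter (fun e => t ≤ e.1 ∧ e ≠ (t, F))).card ≤ F - t := by
    refine interval_bound h hpoor (i := t) (j := F) (by omega) hFN hB _ ?_
    intro p hp'
    rw [Finset.mem_filter] at hp'
    obtain ⟨hp1, hp2, hp3⟩ := hp'
    obtain ⟨b1, b2, b3, b4, b5, b6⟩ := hR _ hp1
    have := hFmax p hp1
    refine ⟨hp2, by omega, this, b5, ?_⟩
    rintro ⟨e1, e2⟩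
    exact hp3 (Prod.ext e1 e2)
  have h2 : K * (R.filter (fun e => e.1 < t)).card ≤ (t - a) + (F - d) + 1 := by
    refine crossing_bound h hpoor hat htd hdF hFN hA hB _ ?_
    intro p hp'
    rw [Finset.mem_filter] at hp'
    obtain ⟨hp1, hp2⟩ := hp'
    obtain ⟨b1, b2, b3, b4, b5, b6⟩ := hR _ hp1
    have := hFmax p hp1
    exact ⟨by omega, by omega, by omega, this, b5, by omega, by omega⟩
  have h3 := Nat.mul_le_mul_left K hsplit
  rw [Nat.mul_add, Nat.mul_add, Nat.mul_one] at h3
  omega

/-- Chords crossing the chord `(a, d)` to the left. -/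
lemma left_bound {G : SimpleGraph V} {v : ℕ → V} {N K : ℕ} (h : IsPathSeq G v N)
    (hpoor : Poor G K) {a d : ℕ} (had : a + 2 ≤ d) (hd : d ≤ N) (hA : G.Adj (v a) (v d))
    (L : Finset (ℕ × ℕ))
    (hL : ∀ e ∈ L, e.1 < a ∧ a < e.2 ∧ e.2 < d ∧ G.Adj (v e.1) (v e.2) ∧
      e.2 - e.1 ≤ d - a) :
    K * L.card ≤ K + 3 * (d - a) := by
  classical
  have hcard : (L.image fun e : ℕ × ℕ => (N - e.2, N - e.1)).card = L.card := by
    refine Finset.card_image_of_injOn ?_
    intro x hx y hy hxy
    obtain ⟨b1, b2, b3, -, -⟩ := hL x hx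
    obtain ⟨c1, c2, c3, -, -⟩ := hL y hy
    simp only [Prod.mk.injEq] at hxy
    exact Prod.ext (by omega) (by omega)
  have key := right_bound h.reverse hpoor (a := N - d) (d := N - a) (by omega)
    (by
      show G.Adj (v (N - (N - d))) (v (N - (N - a)))
      have e1 : N - (N - d) = d := by omega
      have e2 : N - (N - a) = a := by omega
      rw [e1, e2]
      exact hA.symm)
    (L.image fun e : ℕ × ℕ => (N - e.2, N - e.1))
    (by
      intro s hs
      obtain ⟨e, he, rfl⟩ := Finset.mem_image.1 hs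
      obtain ⟨a1, a2, a3, a4, a5⟩ := hL e he
      refine ⟨by simp only; omega, by simp only; omega, by simp only; omega, by simp only; omega,
        ?_, by simp only; omega⟩
      show G.Adj (v (N - (N - e.2))) (v (N - (N - e.1)))
      have e1 : N - (N - e.2) = e.2 := by omega
      have e2 : N - (N - e.1) = e.1 := by omega
      rw [e1, e2]
      exact a4.symm)
  rw [hcard] at key
  omega

/-- Chords starting at a given position. -/
lemma star_right {G : SimpleGraph V} {v : ℕ → V} {N K : ℕ} (h : IsPathSeq G v N)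
    (hpoor : Poor G K) {d lam : ℕ} (D : Finset (ℕ × ℕ))
    (hD : ∀ e ∈ D, e.1 = d ∧ d + 2 ≤ e.2 ∧ e.2 ≤ N ∧ G.Adj (v e.1) (v e.2) ∧ e.2 - d ≤ lam) :
    K * D.card ≤ K + lam := by
  classical
  rcases D.eq_empty_or_nonempty with rfl | hne
  · simp
  obtain ⟨⟨t, F⟩, hp, hFmax⟩ := Finset.exists_max_image D (fun p => p.2) hne
  obtain ⟨ht, hdF, hFN, hB, hsp⟩ := hD _ hp
  simp only at ht hdF hFN hB hsp hFmax
  subst ht
  have h1 : K * (D.erase (t, F)).card ≤ F - t := by
    refine interval_bound h hpoor (i := t) (j := F) (by omega) hFN hB _ ?_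
    intro p hp'
    rw [Finset.mem_erase] at hp'
    obtain ⟨hp3, hp1⟩ := hp'
    obtain ⟨b1, b2, b3, b4, b5⟩ := hD _ hp1
    have := hFmax p hp1
    refine ⟨by omega, by omega, this, b4, ?_⟩
    rintro ⟨e1, e2⟩
    exact hp3 (Prod.ext e1 e2)
  have h2 : D.card = (D.erase (t, F)).card + 1 := (Finset.card_erase_add_one hp).symm
  rw [h2, Nat.mul_add, Nat.mul_one]
  omega

/-- Chords ending at a given position. -/
lemma star_left {G : SimpleGraph V} {v : ℕ → V} {N K : ℕ} (h : IsPathSeq G v N)
    (hpoor : Poor G K) {a lam : ℕ} (ha : a ≤ N) (D : Finset (ℕ × ℕ))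
    (hD : ∀ e ∈ D, e.2 = a ∧ e.1 + 2 ≤ a ∧ G.Adj (v e.1) (v e.2) ∧ a - e.1 ≤ lam) :
    K * D.card ≤ K + lam := by
  classical
  have hcard : (D.image fun e : ℕ × ℕ => (N - e.2, N - e.1)).card = D.card := by
    refine Finset.card_image_of_injOn ?_
    intro x hx y hy hxy
    obtain ⟨b1, b2, -, -⟩ := hD x hx
    obtain ⟨c1, c2, -, -⟩ := hD y hy
    simp only [Prod.mk.injEq] at hxy
    exact Prod.ext (by omega) (by omega)
  have key := star_right h.reverse hpoor (d := N - a) (lam := lam)
    (D.image fun e : ℕ × ℕ => (N - e.2, N - e.1))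
    (by
      intro s hs
      obtain ⟨e, he, rfl⟩ := Finset.mem_image.1 hs
      obtain ⟨a1, a2, a3, a4⟩ := hD e he
      refine ⟨by simp only; omega, by simp only; omega, by simp only; omega, ?_,
        by simp only; omega⟩
      show G.Adj (v (N - (N - e.2))) (v (N - (N - e.1)))
      have e1 : N - (N - e.2) = e.2 := by omega
      have e2 : N - (N - e.1) = e.1 := by omega
      rw [e1, e2]
      exact a3.symm)
  rw [hcard] at key
  exact key

/-- A set of chords of the path given by `v`. -/
def Valid (G : SimpleGraph V) (v : ℕ → V) (N : ℕ) (E : Finset (ℕ × ℕ)) : Prop :=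
  ∀ e ∈ E, e.1 + 2 ≤ e.2 ∧ e.2 ≤ N ∧ G.Adj (v e.1) (v e.2)

/-- Few chords meet a longest chord. -/
lemma meeting_bound {G : SimpleGraph V} {v : ℕ → V} {N K : ℕ} (h : IsPathSeq G v N)
    (hpoor : Poor G K) (E : Finset (ℕ × ℕ)) (hE : Valid G v N E) {a d : ℕ} (hmem : (a, d) ∈ E)
    (hmax : ∀ e ∈ E, e.2 - e.1 ≤ d - a) :
    K * (E.filter fun e => e.1 ≤ d ∧ a ≤ e.2).card ≤ 5 * K + 9 * (d - a) := by
  classical
  obtain ⟨had, hd, hA⟩ := hE _ hmem
  simp only at had hd hA
  let Sin := E.filter fun e => a ≤ e.1 ∧ e.2 ≤ d ∧ e ≠ (a, d)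
  let R := E.filter fun e => a < e.1 ∧ e.1 < d ∧ d < e.2
  let L := E.filter fun e => e.1 < a ∧ a < e.2 ∧ e.2 < d
  let Dd := E.filter fun e => e.1 = d
  let Da := E.filter fun e => e.2 = a
  have hsub : (E.filter fun e => e.1 ≤ d ∧ a ≤ e.2) ⊆ Sin ∪ {(a, d)} ∪ R ∪ L ∪ Dd ∪ Da := by
    intro e he
    rw [Finset.mem_filter] at he
    obtain ⟨he, h1, h2⟩ := he
    obtain ⟨b1, b2, b3⟩ := hE e he
    have b4 := hmax e he
    simp only [Sin, R, L, Dd, Da, Finset.mem_union, Finset.mem_filter, Finset.mem_singleton]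
    by_cases c0 : e = (a, d)
    · tauto
    have : (a ≤ e.1 ∧ e.2 ≤ d) ∨ (a < e.1 ∧ e.1 < d ∧ d < e.2) ∨
        (e.1 < a ∧ a < e.2 ∧ e.2 < d) ∨ e.1 = d ∨ e.2 = a := by omega
    tauto
  have c1 := Finset.card_le_card hsub
  have c2 := Finset.card_union_le (Sin ∪ {(a, d)} ∪ R ∪ L ∪ Dd) Da
  have c3 := Finset.card_union_le (Sin ∪ {(a, d)} ∪ R ∪ L) Dd
  have c4 := Finset.card_union_le (Sin ∪ {(a, d)} ∪ R) L
  have c5 := Finset.card_union_le (Sin ∪ {(a, d)}) R
  have c6 := Finset.card_union_le Sin {(a, d)}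
  rw [Finset.card_singleton] at c6
  have k1 : K * Sin.card ≤ d - a := by
    refine interval_bound h hpoor had hd hA _ ?_
    intro e he
    obtain ⟨he, h1, h2, h3⟩ := Finset.mem_filter.1 he
    obtain ⟨b1, b2, b3⟩ := hE e he
    exact ⟨h1, b1, h2, b3, fun hh => h3 (Prod.ext hh.1 hh.2)⟩
  have k2 : K * R.card ≤ K + 3 * (d - a) := by
    refine right_bound h hpoor had hA _ ?_
    intro e he
    obtain ⟨he, h1, h2, h3⟩ := Finset.mem_filter.1 he
    obtain ⟨b1, b2, b3⟩ := hE e he
    exact ⟨h1, h2, h3, b2, b3, hmax e he⟩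
  have k3 : K * L.card ≤ K + 3 * (d - a) := by
    refine left_bound h hpoor had hd hA _ ?_
    intro e he
    obtain ⟨he, h1, h2, h3⟩ := Finset.mem_filter.1 he
    obtain ⟨b1, b2, b3⟩ := hE e he
    exact ⟨h1, h2, h3, b3, hmax e he⟩
  have k4 : K * Dd.card ≤ K + (d - a) := by
    refine star_right h hpoor (d := d) _ ?_
    intro e he
    obtain ⟨he, h1⟩ := Finset.mem_filter.1 he
    obtain ⟨b1, b2, b3⟩ := hE e he
    have := hmax e he
    exact ⟨h1, by omega, b2, b3, by omega⟩
  have k5 : K * Da.card ≤ K + (d - a) := by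
    refine star_left h hpoor (a := a) (by omega) _ ?_
    intro e he
    obtain ⟨he, h1⟩ := Finset.mem_filter.1 he
    obtain ⟨b1, b2, b3⟩ := hE e he
    have := hmax e he
    exact ⟨h1, by omega, b3, by omega⟩
  have c7 : (E.filter fun e => e.1 ≤ d ∧ a ≤ e.2).card ≤
      Sin.card + 1 + R.card + L.card + Dd.card + Da.card := by omega
  have c8 := Nat.mul_le_mul_left K c7
  simp only [Nat.mul_add, Nat.mul_one] at c8
  omega

/-! ### Removing long chords -/

/-- Positions which are not ends of the given chords. -/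
def bare (N : ℕ) (E : Finset (ℕ × ℕ)) : Finset ℕ :=
  (Finset.range (N + 1)).filter fun x => ∀ e ∈ E, x ≠ e.1 ∧ x ≠ e.2

/-- All chords of span at least `21` can be removed at the price of at most doubling the number
of bare positions. -/
lemma reduce {G : SimpleGraph V} {v : ℕ → V} {N K : ℕ} (h : IsPathSeq G v N)
    (hpoor : Poor G K) (hK : 500 ≤ K) : ∀ (n : ℕ) (E : Finset (ℕ × ℕ)), E.card ≤ n →
    Valid G v N E → ∀ cov : Finset ℕ, cov ⊆ Finset.range (N + 1) →
    (∀ e ∈ E, ∀ c ∈ cov, c < e.1 ∨ e.2 < c) →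
    ∃ (E' : Finset (ℕ × ℕ)) (cov' : Finset ℕ), E' ⊆ E ∧ cov' ⊆ Finset.range (N + 1) ∧
      (∀ e ∈ E', ∀ c ∈ cov', c < e.1 ∨ e.2 < c) ∧ (∀ e ∈ E', e.2 - e.1 ≤ 20) ∧
      2 * (bare N E').card + cov.card ≤ 2 * (bare N E).card + cov'.card := by
  classical
  intro n
  induction n with
  | zero =>
    intro E hn hE cov hcov hdisj
    have : E = ∅ := Finset.card_eq_zero.1 (by omega)
    subst this
    exact ⟨∅, cov, by simp, hcov, by simp, by simp, le_rfl⟩
  | succ n ih =>
    intro E hn hE cov hcov hdisj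
    by_cases hall : ∀ e ∈ E, e.2 - e.1 ≤ 20
    · exact ⟨E, cov, subset_rfl, hcov, hdisj, hall, le_rfl⟩
    push Not at hall
    obtain ⟨e0, he0, hlong⟩ := hall
    obtain ⟨⟨a, d⟩, hmem, hmax⟩ := Finset.exists_max_image E (fun e => e.2 - e.1) ⟨e0, he0⟩
    simp only at hmax
    have hspan : 21 ≤ d - a := by
      have := hmax e0 he0
      omega
    obtain ⟨had, hd, hA⟩ := hE _ hmem
    simp only at had hd hA
    have hmeet := meeting_bound h hpoor E hE hmem hmax
    set Em := E.filter fun e => e.1 ≤ d ∧ a ≤ e.2 with hEm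
    set E1 := E.filter fun e => ¬ (e.1 ≤ d ∧ a ≤ e.2) with hE1
    have hadmem : (a, d) ∈ Em := by
      rw [hEm, Finset.mem_filter]
      exact ⟨hmem, by simp only; omega, by simp only; omega⟩
    have hcardE : Em.card + E1.card = E.card := Finset.card_filter_add_card_filter_not _
    have hEmpos : 0 < Em.card := Finset.card_pos.2 ⟨_, hadmem⟩
    have hcov1 : cov ∪ Finset.Icc a d ⊆ Finset.range (N + 1) := by
      refine Finset.union_subset hcov ?_
      intro x hx
      rw [Finset.mem_Icc] at hx
      rw [Finset.mem_range]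
      omega
    obtain ⟨E', cov', h1, h2, h3, h4, h5⟩ := ih E1 (by omega)
      (fun e he => hE e (Finset.mem_filter.1 he).1) (cov ∪ Finset.Icc a d) hcov1 (by
        intro e he c hc
        obtain ⟨he, hne⟩ := Finset.mem_filter.1 he
        rcases Finset.mem_union.1 hc with hc | hc
        · exact hdisj e he c hc
        · rw [Finset.mem_Icc] at hc
          omega)
    refine ⟨E', cov', h1.trans (Finset.filter_subset _ _), h2, h3, h4, ?_⟩
    -- the covered set grows by the whole interval
    have hcovcard : (cov ∪ Finset.Icc a d).card = cov.card + (d - a + 1) := by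
      rw [Finset.card_union_of_disjoint, Nat.card_Icc]
      · omega
      · rw [Finset.disjoint_left]
        intro x hx hx'
        rw [Finset.mem_Icc] at hx'
        have := hdisj _ hmem x hx
        simp only at this
        omega
    -- few positions become bare
    have hbare : (bare N E1).card ≤ (bare N E).card + 2 * Em.card := by
      have hsub : bare N E1 ⊆ bare N E ∪ (Em.image Prod.fst ∪ Em.image Prod.snd) := by
        intro x hx
        simp only [bare, Finset.mem_filter] at hx
        by_cases hx' : ∀ e ∈ E, x ≠ e.1 ∧ x ≠ e.2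
        · exact Finset.mem_union_left _ (Finset.mem_filter.2 ⟨hx.1, hx'⟩)
        · push Not at hx'
          obtain ⟨e, he, hee⟩ := hx'
          have heEm : e ∈ Em := by
            by_contra hne
            have heE1 : e ∈ E1 := by
              rw [hE1, Finset.mem_filter]
              refine ⟨he, fun hc => hne ?_⟩
              rw [hEm, Finset.mem_filter]
              exact ⟨he, hc⟩
            obtain ⟨c1, c2⟩ := hx.2 e heE1
            exact c2 (hee c1)
          refine Finset.mem_union_right _ ?_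
          by_cases hxe : x = e.1
          · exact Finset.mem_union_left _ (Finset.mem_image.2 ⟨e, heEm, hxe.symm⟩)
          · exact Finset.mem_union_right _ (Finset.mem_image.2 ⟨e, heEm, (hee hxe).symm⟩)
      refine (Finset.card_le_card hsub).trans ((Finset.card_union_le _ _).trans ?_)
      have c1 := Finset.card_union_le (Em.image Prod.fst) (Em.image Prod.snd)
      have c2 : (Em.image Prod.fst).card ≤ Em.card := Finset.card_image_le
      have c3 : (Em.image Prod.snd).card ≤ Em.card := Finset.card_image_le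
      omega
    have hfew : 4 * Em.card ≤ d - a + 1 := by
      by_contra hcon
      push Not at hcon
      have e1 : K * (d - a + 2) ≤ K * (4 * Em.card) := Nat.mul_le_mul_left K (by omega)
      have e2 : K * (4 * Em.card) = 4 * (K * Em.card) := by ring
      have e3 : K * (d - a + 2) = K * (d - a) + 2 * K := by ring
      have e4 : K * (d - a) ≤ 18 * K + 36 * (d - a) := by omega
      obtain ⟨m, hm⟩ : ∃ m, d - a = 21 + m := ⟨d - a - 21, by omega⟩
      rw [hm] at e4
      obtain ⟨k, hk⟩ : ∃ k, K = 500 + k := ⟨K - 500, by omega⟩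
      rw [hk] at e4
      nlinarith
    omega

/-- If all chords are short then every chord spans a bare position. -/
lemma short_chord_bare {G : SimpleGraph V} {v : ℕ → V} {N K : ℕ} (h : IsPathSeq G v N)
    (hpoor : Poor G K) (hK : 500 ≤ K) (E : Finset (ℕ × ℕ)) (hE : Valid G v N E)
    (hshort : ∀ e ∈ E, e.2 - e.1 ≤ 20) {a d : ℕ} (hmem : (a, d) ∈ E) :
    ∃ z ∈ bare N E, a < z ∧ z < d := by
  classical
  by_contra hno
  push Not at hno
  -- nested chords are impossible
  have nested : ∀ i j s g, (i, j) ∈ E → (s, g) ∈ E → i ≤ s → g ≤ j → ¬ (s = i ∧ g = j) →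
      False := by
    intro i j s g h1 h2 h3 h4 h5
    obtain ⟨b1, b2, b3⟩ := hE _ h1
    obtain ⟨c1, c2, c3⟩ := hE _ h2
    have b4 := hshort _ h1
    simp only at b1 b2 b3 b4 c1 c2 c3
    have := interval_bound h hpoor b1 b2 b3 {(s, g)} (by
      intro p hp
      rw [Finset.mem_singleton] at hp
      subst hp
      exact ⟨h3, c1, h4, c3, h5⟩)
    rw [Finset.card_singleton] at this
    omega
  -- crossing chords with adjacent inner ends are impossible
  have cross : ∀ i j F, (i, j + 1) ∈ E → (j, F) ∈ E → i < j → j + 1 < F → False := by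
    intro i j F h1 h2 h3 h4
    obtain ⟨b1, b2, b3⟩ := hE _ h1
    obtain ⟨c1, c2, c3⟩ := hE _ h2
    have b4 := hshort _ h1
    have c4 := hshort _ h2
    simp only at b1 b2 b3 b4 c1 c2 c3 c4
    have := crossing_bound h hpoor (a := i) (t := j) (d := j + 1) (F := F) h3 (by omega) h4 c2
      b3 c3 {(j, j + 1)} (by
      intro p hp
      rw [Finset.mem_singleton] at hp
      subst hp
      exact ⟨by simp only; omega, le_rfl, le_rfl, by simp only; omega, h.adj j (by omega),
        by simp only; omega, by simp only; omega⟩)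
    rw [Finset.card_singleton] at this
    omega
  obtain ⟨had, hd, -⟩ := hE _ hmem
  simp only at had hd
  have step : ∀ i, a + i < d → ∃ g, d ≤ g ∧ (a + i, g) ∈ E := by
    intro i
    induction i with
    | zero => intro _; exact ⟨d, le_rfl, hmem⟩
    | succ i ih =>
      intro hi
      obtain ⟨g, hg, hgE⟩ := ih (by omega)
      have hnb : a + (i + 1) ∉ bare N E := fun hb => by
        have := hno _ hb (by omega)
        omega
      have hex : ∃ e ∈ E, a + (i + 1) = e.1 ∨ a + (i + 1) = e.2 := by
        by_contra hcon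
        push Not at hcon
        exact hnb (Finset.mem_filter.2 ⟨Finset.mem_range.2 (by omega), hcon⟩)
      obtain ⟨⟨s, t⟩, he, hor⟩ := hex
      obtain ⟨b1, b2, -⟩ := hE _ he
      simp only at b1 b2 hor
      rcases hor with hor | hor
      · refine ⟨t, ?_, by rw [hor]; exact he⟩
        by_contra hlt
        exact nested (a + i) g s t hgE he (by omega) (by omega) (by omega)
      · exfalso
        refine cross s (a + i) g ?_ hgE (by omega) (by omega)
        have : a + i + 1 = t := by omega
        rw [this]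
        exact he
  obtain ⟨g, hg, hgE⟩ := step (d - 1 - a) (by omega)
  have e1 : a + (d - 1 - a) = d - 1 := by omega
  rw [e1] at hgE
  obtain ⟨b1, b2, -⟩ := hE _ hgE
  simp only at b1 b2
  refine cross a (d - 1) g ?_ hgE (by omega) (by omega)
  have : d - 1 + 1 = d := by omega
  rw [this]
  exact hmem

/-- In a poor graph every path has a positive proportion of vertices without a non-consecutive
neighbour on the path. -/
lemma many_bare {G : SimpleGraph V} {v : ℕ → V} {N K : ℕ} (h : IsPathSeq G v N)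
    (hpoor : Poor G K) (hK : 500 ≤ K) (E : Finset (ℕ × ℕ)) (hE : Valid G v N E) :
    N + 1 ≤ 78 * (bare N E).card := by
  classical
  obtain ⟨E', cov', h1, h2, h3, h4, h5⟩ := reduce h hpoor hK E.card E le_rfl hE ∅ (by simp)
    (by simp)
  have hE' : Valid G v N E' := fun e he => hE e (h1 he)
  have hcb : cov' ⊆ bare N E' := by
    intro c hc
    refine Finset.mem_filter.2 ⟨h2 hc, fun e he => ?_⟩
    have := h3 e he c hc
    have := (hE' e he).1
    omega
  have hcbc := Finset.card_le_card hcb
  rw [Finset.card_empty] at h5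
  have hcover : Finset.range (N + 1) ⊆
      (bare N E').biUnion fun z => Finset.Icc (z - 19) (z + 19) := by
    intro x hx
    rw [Finset.mem_biUnion]
    by_cases hxb : x ∈ bare N E'
    · exact ⟨x, hxb, Finset.mem_Icc.2 (by omega)⟩
    · have hex : ∃ e ∈ E', x = e.1 ∨ x = e.2 := by
        by_contra hcon
        push Not at hcon
        exact hxb (Finset.mem_filter.2 ⟨hx, hcon⟩)
      obtain ⟨⟨s, t⟩, he, hor⟩ := hex
      obtain ⟨z, hz, hz1, hz2⟩ := short_chord_bare h hpoor hK E' hE' h4 he
      have := h4 _ he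
      simp only at this hor
      exact ⟨z, hz, Finset.mem_Icc.2 (by omega)⟩
  have hc := (Finset.card_le_card hcover).trans Finset.card_biUnion_le
  have hs : ∑ z ∈ bare N E', (Finset.Icc (z - 19) (z + 19)).card ≤ ∑ _z ∈ bare N E', 39 := by
    refine Finset.sum_le_sum fun z _ => ?_
    rw [Nat.card_Icc]
    omega
  rw [Finset.sum_const, smul_eq_mul] at hs
  rw [Finset.card_range] at hc
  omega

/-! ### Edges between two disjoint paths -/

/-- Chords inside the cycle formed by two disjoint paths and two edges between them. -/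
lemma box_bound {G : SimpleGraph V} {v w : ℕ → V} {N M K : ℕ} (hv : IsPathSeq G v N)
    (hw : IsPathSeq G w M) (hvw : ∀ i ≤ N, ∀ j ≤ M, v i ≠ w j) (hpoor : Poor G K)
    {x y al be : ℕ} (hxy : x < y) (hy : y ≤ N) (hab : al ≤ be) (hb : be ≤ M)
    (hA : G.Adj (v x) (w al)) (hB : G.Adj (v y) (w be)) (S : Finset (ℕ × ℕ))
    (hS : ∀ e ∈ S, x ≤ e.1 ∧ e.1 ≤ y ∧ al ≤ e.2 ∧ e.2 ≤ be ∧ G.Adj (v e.1) (w e.2) ∧
      ¬ (e.1 = x ∧ e.2 = al) ∧ ¬ (e.1 = y ∧ e.2 = be)) :
    K * S.card ≤ N + M + 1 := by
  classical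
  have pinj : ∀ s g s' g', s ≤ N → g ≤ M → s' ≤ N → g' ≤ M → s(v s, w g) = s(v s', w g') →
      s = s' ∧ g = g' := by
    intro s g s' g' h1 h2 h3 h4 he
    rw [Sym2.eq_iff] at he
    rcases he with ⟨e1, e2⟩ | ⟨e1, e2⟩
    · exact ⟨hv.inj s h1 s' h3 e1, hw.inj g h2 g' h4 e2⟩
    · exact absurd e1 (hvw s h1 g' h4)
  have hcard : (S.image fun e : ℕ × ℕ => s(v e.1, w e.2)).card = S.card := by
    refine Finset.card_image_of_injOn ?_
    intro e he e' he' hee
    obtain ⟨a1, a2, a3, a4, -⟩ := hS e he
    obtain ⟨b1, b2, b3, b4, -⟩ := hS e' he'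
    obtain ⟨e1, e2⟩ := pinj _ _ _ _ (by omega) (by omega) (by omega) (by omega) hee
    exact Prod.ext e1 e2
  let c : ℕ → V := fun r => if r ≤ y - x then v (x + r) else w (be - (r - (y - x) - 1))
  have c1 : ∀ r, r ≤ y - x → c r = v (x + r) := fun r hr => if_pos hr
  have c2 : ∀ r, ¬ r ≤ y - x → c r = w (be - (r - (y - x) - 1)) := fun r hr => if_neg hr
  obtain ⟨u, C, hC, hlen, hcount⟩ := exists_cycle G c ((y - x) + (be - al) + 1)
    (by omega)
    (by
      intro r hr r' hr' hrr
      by_cases hc : r ≤ y - x <;> by_cases hc' : r' ≤ y - x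
      · rw [c1 r hc, c1 r' hc'] at hrr
        have := hv.inj _ (by omega) _ (by omega) hrr
        omega
      · rw [c1 r hc, c2 r' hc'] at hrr
        exact absurd hrr (hvw _ (by omega) _ (by omega))
      · rw [c2 r hc, c1 r' hc'] at hrr
        exact absurd hrr.symm (hvw _ (by omega) _ (by omega))
      · rw [c2 r hc, c2 r' hc'] at hrr
        have := hw.inj _ (by omega) _ (by omega) hrr
        omega)
    (by
      intro r hr
      by_cases hc : r + 1 ≤ y - x
      · rw [c1 r (by omega), c1 (r + 1) hc]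
        exact hv.adj (x + r) (by omega)
      · by_cases hc' : r ≤ y - x
        · rw [c1 r hc', c2 (r + 1) hc]
          have e1 : x + r = y := by omega
          have e2 : be - (r + 1 - (y - x) - 1) = be := by omega
          rw [e1, e2]
          exact hB
        · rw [c2 r hc', c2 (r + 1) hc]
          have e1 : be - (r - (y - x) - 1) = be - (r + 1 - (y - x) - 1) + 1 := by omega
          rw [e1]
          exact (hw.adj _ (by omega)).symm)
    (by
      rw [c2 _ (by omega), c1 0 (by omega)]
      have e1 : be - (y - x + (be - al) + 1 - (y - x) - 1) = al := by omega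
      rw [e1, Nat.add_zero]
      exact hA.symm)
    (S.image fun e : ℕ × ℕ => s(v e.1, w e.2))
    (by
      intro e' he'
      obtain ⟨e, he, rfl⟩ := Finset.mem_image.1 he'
      obtain ⟨a1, a2, a3, a4, a5, a6, a7⟩ := hS e he
      refine ⟨a5, ?_, ?_, ?_⟩
      · intro z hz
        rw [Sym2.mem_iff] at hz
        rcases hz with rfl | rfl
        · refine ⟨e.1 - x, by omega, ?_⟩
          rw [c1 _ (by omega)]
          congr 1; omega
        · refine ⟨(y - x) + 1 + (be - e.2), by omega, ?_⟩
          rw [c2 _ (by omega)]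
          congr 1; omega
      · intro r hr hE
        by_cases hc : r + 1 ≤ y - x
        · rw [c1 r (by omega), c1 (r + 1) hc, Sym2.eq_iff] at hE
          rcases hE with ⟨-, e2⟩ | ⟨-, e2⟩
          · exact hvw _ (by omega) _ (by omega) e2.symm
          · exact hvw _ (by omega) _ (by omega) e2.symm
        · by_cases hc' : r ≤ y - x
          · rw [c1 r hc', c2 (r + 1) hc] at hE
            obtain ⟨e1, e2⟩ := pinj _ _ _ _ (by omega) (by omega) (by omega) (by omega) hE
            omega
          · rw [c2 r hc', c2 (r + 1) hc, Sym2.eq_iff] at hE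
            rcases hE with ⟨e1, -⟩ | ⟨e1, -⟩
            · exact hvw _ (by omega) _ (by omega) e1
            · exact hvw _ (by omega) _ (by omega) e1
      · intro hE
        rw [c2 _ (by omega), c1 0 (by omega)] at hE
        have e1 : be - (y - x + (be - al) + 1 - (y - x) - 1) = al := by omega
        rw [e1, Nat.add_zero, Sym2.eq_swap (a := w al)] at hE
        obtain ⟨e1, e2⟩ := pinj _ _ _ _ (by omega) (by omega) (by omega) (by omega) hE
        omega)
  have h1 := hpoor u C hC
  rw [hcard] at hcount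
  have h2 := Nat.mul_le_mul_left K hcount
  omega

/-- `x` lies between `a` and `b`. -/
def Btw (a b x : ℕ) : Prop := (a ≤ x ∧ x ≤ b) ∨ (b ≤ x ∧ x ≤ a)

/-- Edges between two disjoint paths inside the box spanned by two of them, ordered version. -/
lemma ordered_box {G : SimpleGraph V} {v w : ℕ → V} {N M K : ℕ} (hv : IsPathSeq G v N)
    (hw : IsPathSeq G w M) (hvw : ∀ i ≤ N, ∀ j ≤ M, v i ≠ w j) (hpoor : Poor G K)
    (f : ℕ → ℕ) {x y : ℕ} (hxy : x < y) (hy : y ≤ N) (hfx : f x ≤ M) (hfy : f y ≤ M)
    (hA : G.Adj (v x) (w (f x))) (hB : G.Adj (v y) (w (f y))) (S : Finset ℕ)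
    (hS : ∀ s ∈ S, x < s ∧ s < y ∧ Btw (f x) (f y) (f s) ∧ G.Adj (v s) (w (f s))) :
    K * S.card ≤ N + M + 1 := by
  classical
  by_cases hle : f x ≤ f y
  · have hc : (S.image fun s => (s, f s)).card = S.card :=
      Finset.card_image_of_injective _ fun x y hxy => congrArg Prod.fst hxy
    rw [← hc]
    refine box_bound hv hw hvw hpoor hxy hy hle hfy hA hB _ ?_
    intro e he
    obtain ⟨s, hs, rfl⟩ := Finset.mem_image.1 he
    obtain ⟨a1, a2, a3, a4⟩ := hS s hs
    unfold Btw at a3
    exact ⟨a1.le, a2.le, by simp only; omega, by simp only; omega, a4, by simp only; omega,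
      by simp only; omega⟩
  · have hc : (S.image fun s => (s, M - f s)).card = S.card :=
      Finset.card_image_of_injective _ fun x y hxy => congrArg Prod.fst hxy
    rw [← hc]
    have hwr : ∀ g ≤ M, w (M - (M - g)) = w g := by
      intro g hg
      congr 1; omega
    refine box_bound (w := fun i => w (M - i)) (al := M - f x) (be := M - f y) hv hw.reverse
      (fun i hi j hj => hvw i hi (M - j) (by omega)) hpoor hxy hy (by omega) (by omega)
      (by rw [hwr _ hfx]; exact hA) (by rw [hwr _ hfy]; exact hB) _ ?_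
    intro e he
    obtain ⟨s, hs, rfl⟩ := Finset.mem_image.1 he
    obtain ⟨a1, a2, a3, a4⟩ := hS s hs
    unfold Btw at a3
    refine ⟨a1.le, a2.le, by simp only; omega, by simp only; omega, ?_, by simp only; omega,
      by simp only; omega⟩
    show G.Adj (v s) (w (M - (M - f s)))
    have : M - (M - f s) = f s := by omega
    rw [this]
    exact a4

/-- In a poor graph there are few edges (with distinct ends on the first path) between two
disjoint paths. -/
lemma cross_bound {G : SimpleGraph V} {v w : ℕ → V} {N M K : ℕ} (hv : IsPathSeq G v N)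
    (hw : IsPathSeq G w M) (hvw : ∀ i ≤ N, ∀ j ≤ M, v i ≠ w j) (hpoor : Poor G K)
    (X : Finset ℕ) (hX : ∀ s ∈ X, s ≤ N ∧ ∃ g ≤ M, G.Adj (v s) (w g)) :
    K * X.card ≤ 4 * K + 6 * (N + M + 1) := by
  classical
  rcases X.eq_empty_or_nonempty with rfl | hne
  · simp
  choose! f hf1 hf2 using fun s (hs : s ∈ X) => (hX s hs).2
  obtain ⟨l, hl, hlmin⟩ := Finset.exists_min_image X (fun s => s) hne
  obtain ⟨r, hr, hrmax⟩ := Finset.exists_max_image X (fun s => s) hne
  obtain ⟨b, hb, hbmin⟩ := Finset.exists_min_image X f hne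
  obtain ⟨t, ht, htmax⟩ := Finset.exists_max_image X f hne
  have box : ∀ x ∈ X, ∀ y ∈ X,
      K * (X.filter fun s => s ≠ x ∧ s ≠ y ∧ Btw x y s ∧ Btw (f x) (f y) (f s)).card ≤
        N + M + 1 := by
    intro x hx y hy
    rcases lt_trichotomy x y with h1 | h1 | h1
    · refine ordered_box hv hw hvw hpoor f h1 (hX y hy).1 (hf1 x hx) (hf1 y hy) (hf2 x hx)
        (hf2 y hy) _ ?_
      intro s hs
      obtain ⟨hs, a1, a2, a3, a4⟩ := Finset.mem_filter.1 hs
      unfold Btw at a3
      exact ⟨by omega, by omega, a4, hf2 s hs⟩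
    · have : (X.filter fun s => s ≠ x ∧ s ≠ y ∧ Btw x y s ∧ Btw (f x) (f y) (f s)) = ∅ := by
        rw [Finset.filter_eq_empty_iff]
        intro s hs hcon
        obtain ⟨a1, a2, a3, a4⟩ := hcon
        unfold Btw at a3
        omega
      rw [this]
      simp
    · refine ordered_box hv hw hvw hpoor f h1 (hX x hx).1 (hf1 y hy) (hf1 x hx) (hf2 y hy)
        (hf2 x hx) _ ?_
      intro s hs
      obtain ⟨hs, a1, a2, a3, a4⟩ := Finset.mem_filter.1 hs
      unfold Btw at a3 a4
      exact ⟨by omega, by omega, by unfold Btw; omega, hf2 s hs⟩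
  let B : ℕ → ℕ → Finset ℕ := fun x y =>
    X.filter fun s => s ≠ x ∧ s ≠ y ∧ Btw x y s ∧ Btw (f x) (f y) (f s)
  have hsub : X ⊆ ({l, r, b, t} : Finset ℕ) ∪ B l r ∪ B b t ∪ B l t ∪ B t r ∪ B l b ∪ B b r := by
    intro s hs
    have h1 := hlmin s hs
    have h2 := hrmax s hs
    have h3 := hbmin s hs
    have h4 := htmax s hs
    have hB : ∀ x y, s ≠ x → s ≠ y → Btw x y s → Btw (f x) (f y) (f s) → s ∈ B x y :=
      fun x y g1 g2 g3 g4 => Finset.mem_filter.2 ⟨hs, g1, g2, g3, g4⟩
    by_cases c0 : s ∈ ({l, r, b, t} : Finset ℕ)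
    · exact Finset.mem_union_left _ (Finset.mem_union_left _ (Finset.mem_union_left _
        (Finset.mem_union_left _ (Finset.mem_union_left _ (Finset.mem_union_left _ c0)))))
    simp only [Finset.mem_insert, Finset.mem_singleton, not_or] at c0
    obtain ⟨c1, c2, c3, c4⟩ := c0
    by_cases c5 : Btw (f l) (f r) (f s)
    · exact Finset.mem_union_left _ (Finset.mem_union_left _ (Finset.mem_union_left _
        (Finset.mem_union_left _ (Finset.mem_union_left _ (Finset.mem_union_right _
        (hB l r c1 c2 (Or.inl ⟨h1, h2⟩) c5))))))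
    by_cases c6 : Btw b t s
    · exact Finset.mem_union_left _ (Finset.mem_union_left _ (Finset.mem_union_left _
        (Finset.mem_union_left _ (Finset.mem_union_right _
        (hB b t c3 c4 c6 (Or.inl ⟨h3, h4⟩))))))
    unfold Btw at c5 c6
    have c7 : (f s < f l ∧ f s < f r) ∨ (f l < f s ∧ f r < f s) := by omega
    have c8 : (s < b ∧ s < t) ∨ (b < s ∧ t < s) := by omega
    rcases c7 with ⟨d1, d2⟩ | ⟨d1, d2⟩ <;> rcases c8 with ⟨d3, d4⟩ | ⟨d3, d4⟩
    · exact Finset.mem_union_left _ (Finset.mem_union_right _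
        (hB l b c1 c3 (Or.inl ⟨h1, d3.le⟩) (Or.inr ⟨h3, d1.le⟩)))
    · exact Finset.mem_union_right _
        (hB b r c3 c2 (Or.inl ⟨d3.le, h2⟩) (Or.inl ⟨h3, d2.le⟩))
    · exact Finset.mem_union_left _ (Finset.mem_union_left _ (Finset.mem_union_left _
        (Finset.mem_union_right _ (hB l t c1 c4 (Or.inl ⟨h1, d4.le⟩) (Or.inl ⟨d1.le, h4⟩)))))
    · exact Finset.mem_union_left _ (Finset.mem_union_left _ (Finset.mem_union_right _
        (hB t r c4 c2 (Or.inl ⟨d4.le, h2⟩) (Or.inr ⟨d2.le, h4⟩))))
  have e0 := Finset.card_le_card hsub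
  have e1 := Finset.card_union_le
    (({l, r, b, t} : Finset ℕ) ∪ B l r ∪ B b t ∪ B l t ∪ B t r ∪ B l b) (B b r)
  have e2 := Finset.card_union_le
    (({l, r, b, t} : Finset ℕ) ∪ B l r ∪ B b t ∪ B l t ∪ B t r) (B l b)
  have e3 := Finset.card_union_le (({l, r, b, t} : Finset ℕ) ∪ B l r ∪ B b t ∪ B l t) (B t r)
  have e4 := Finset.card_union_le (({l, r, b, t} : Finset ℕ) ∪ B l r ∪ B b t) (B l t)
  have e5 := Finset.card_union_le (({l, r, b, t} : Finset ℕ) ∪ B l r) (B b t)
  have e6 := Finset.card_union_le ({l, r, b, t} : Finset ℕ) (B l r)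
  have e7 : ({l, r, b, t} : Finset ℕ).card ≤ 4 := Finset.card_le_four
  have e8 : X.card ≤ 4 + (B l r).card + (B b t).card + (B l t).card + (B t r).card +
      (B l b).card + (B b r).card := by omega
  have e9 := Nat.mul_le_mul_left K e8
  simp only [Nat.mul_add] at e9
  have f1 := box l hl r hr
  have f2 := box b hb t ht
  have f3 := box l hl t ht
  have f4 := box t ht r hr
  have f5 := box l hl b hb
  have f6 := box b hb r hr
  simp only [B] at e9
  omega

/-! ### A cycle with a chord on few vertices -/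

/-- The neighbours of the first vertex of a path which contains all of them. -/
lemma two_far_neighbours {G : SimpleGraph V} {x y : V} (P : G.Walk x y)
    (h1 : 3 ≤ {w | G.Adj (P.getVert 0) w ∧ w ∈ P.support}.ncard) :
    ∃ s j, 2 ≤ s ∧ s < j ∧ j ≤ P.length ∧ G.Adj (P.getVert 0) (P.getVert s) ∧
      G.Adj (P.getVert 0) (P.getVert j) := by
  classical
  have hsupp : ∀ w ∈ P.support, ∃ i ≤ P.length, P.getVert i = w := by
    intro w hw
    obtain ⟨i, hi, hle⟩ := Walk.mem_support_iff_exists_getVert.1 hw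
    exact ⟨i, hle, hi⟩
  by_contra hno
  push Not at hno
  by_cases hex : ∃ j, 2 ≤ j ∧ j ≤ P.length ∧ G.Adj (P.getVert 0) (P.getVert j)
  · obtain ⟨j, hj1, hj2, hj3⟩ := hex
    have hsub : {w | G.Adj (P.getVert 0) w ∧ w ∈ P.support} ⊆
        {P.getVert 1, P.getVert j} := by
      rintro w ⟨hw1, hw2⟩
      obtain ⟨i, hi, rfl⟩ := hsupp w hw2
      by_cases hi0 : i = 0
      · subst hi0
        exact absurd rfl hw1.ne
      by_cases hi1 : i = 1
      · subst hi1; simp
      rcases lt_trichotomy i j with h3 | h3 | h3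
      · exact absurd hj3 (hno i j (by omega) h3 hj2 hw1)
      · subst h3; simp
      · exact absurd hw1 (hno j i hj1 h3 hi hj3)
    have h2 := Set.ncard_le_ncard hsub (Set.toFinite _)
    have h3 := Set.ncard_insert_le (P.getVert 1) {P.getVert j}
    rw [Set.ncard_singleton] at h3
    omega
  · push Not at hex
    have hsub : {w | G.Adj (P.getVert 0) w ∧ w ∈ P.support} ⊆ {P.getVert 1} := by
      rintro w ⟨hw1, hw2⟩
      obtain ⟨i, hi, rfl⟩ := hsupp w hw2
      by_cases hi0 : i = 0
      · subst hi0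
        exact absurd rfl hw1.ne
      by_cases hi1 : i = 1
      · subst hi1; simp
      exact absurd hw1 (hex i (by omega) hi)
    have h2 := Set.ncard_le_ncard hsub (Set.toFinite _)
    rw [Set.ncard_singleton] at h2
    omega

lemma isPathSeq_of_isPath {G : SimpleGraph V} {x y : V} (P : G.Walk x y) (hP : P.IsPath) :
    IsPathSeq G P.getVert P.length := by
  refine ⟨?_, fun i hi => P.adj_getVert_succ hi⟩
  intro i hi j hj hij
  exact hP.getVert_injOn (by simpa using hi) (by simpa using hj) hij

/-- A finite vertex set inducing minimum degree at least three contains a cycle with a chord. -/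
lemma small_case {G : SimpleGraph V} {K : ℕ} (hpoor : Poor G K) (U : Set V) (hU : U.Finite)
    (hne : U.Nonempty) (hdeg : ∀ u ∈ U, 3 ≤ {w | G.Adj u w ∧ w ∈ U}.ncard) : K ≤ U.ncard := by
  classical
  let Q : ℕ → Prop := fun n => ∃ (a b : V) (W : G.Walk a b), W.IsPath ∧
    (∀ z ∈ W.support, z ∈ U) ∧ W.length = n
  have hbound : ∀ n, Q n → n + 1 ≤ U.ncard := by
    rintro n ⟨a, b, W, hW, hWU, rfl⟩
    have h1 : W.support.toFinset.card = W.length + 1 := by
      rw [List.toFinset_card_of_nodup hW.support_nodup, Walk.length_support]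
    rw [← h1, ← Set.ncard_coe_finset]
    refine Set.ncard_le_ncard ?_ hU
    intro z hz
    exact hWU z (by simpa using hz)
  obtain ⟨u, hu⟩ := hne
  have hQ0 : Q 0 := ⟨u, u, Walk.nil, Walk.IsPath.nil, by simpa using hu, rfl⟩
  have hex : ∃ n, Q n ∧ ∀ m, Q m → m ≤ n := by
    refine ⟨Nat.findGreatest Q U.ncard, Nat.findGreatest_spec (Nat.zero_le _) hQ0, ?_⟩
    intro m hm
    exact Nat.le_findGreatest (by have := hbound m hm; omega) hm
  obtain ⟨n, ⟨a, b, W, hW, hWU, hlen⟩, hmax⟩ := hex
  have hnb : ∀ w, G.Adj a w → w ∈ U → w ∈ W.support := by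
    intro w haw hw
    by_contra hnot
    have := hmax (n + 1) ⟨w, b, Walk.cons haw.symm W, by
      rw [Walk.cons_isPath_iff]; exact ⟨hW, hnot⟩, by
      intro z hz
      rw [Walk.support_cons, List.mem_cons] at hz
      rcases hz with rfl | hz
      · exact hw
      · exact hWU z hz, by simp [hlen]⟩
    omega
  have ha : W.getVert 0 = a := Walk.getVert_zero W
  have hdega : 3 ≤ {w | G.Adj (W.getVert 0) w ∧ w ∈ W.support}.ncard := by
    rw [ha]
    refine (hdeg a (hWU a (Walk.start_mem_support W))).trans ?_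
    refine Set.ncard_le_ncard ?_ ?_
    · rintro w ⟨h1, h2⟩
      exact ⟨h1, hnb w h1 h2⟩
    · refine (W.support.toFinset.finite_toSet).subset ?_
      rintro w ⟨-, h2⟩
      simpa using h2
  obtain ⟨s, j, h1, h2, h3, h4, h5⟩ := two_far_neighbours W hdega
  have := interval_bound (isPathSeq_of_isPath W hW) hpoor (i := 0) (j := j) (by omega) h3 h5
    {(0, s)} (by
      intro p hp
      rw [Finset.mem_singleton] at hp
      subst hp
      exact ⟨le_rfl, by simpa using h1, h2.le, h4, by simp only; omega⟩)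
  rw [Finset.card_singleton] at this
  have := hbound n ⟨a, b, W, hW, hWU, hlen⟩
  omega

/-! ### The theorem -/

/-- **Result.** Let `P i` be pairwise disjoint paths of `G`, `i = 1, ..., p`, and let `U` be the
union of their vertex sets. Suppose that the number of vertices of `U` with fewer than three
neighbours in `U` is at most `|U| / (500 p ^ 2)`. Then `G` has a cycle `C` whose length is at most
`500 p ^ 2` times its number of chords. -/
theorem result {V : Type*} (G : SimpleGraph V) {p : ℕ} (hp : 0 < p) {x y : Fin p → V}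
    (P : ∀ i, G.Walk (x i) (y i)) (hP : ∀ i, (P i).IsPath)
    (hdisj : ∀ i j, i ≠ j → List.Disjoint (P i).support (P j).support)
    (U : Set V) (hU : ∀ z, z ∈ U ↔ ∃ i, z ∈ (P i).support)
    (hexc : 500 * p ^ 2 * {u | u ∈ U ∧ {w | G.Adj u w ∧ w ∈ U}.ncard < 3}.ncard ≤ U.ncard) :
    ∃ (u : V) (C : G.Walk u u), C.IsCycle ∧ C.length ≤ 500 * p ^ 2 * (chords G C).ncard := by
  classical
  by_contra hcon
  push Not at hcon
  set K := 500 * p ^ 2 with hKdef
  have hpoor : Poor G K := fun u C hC => hcon u C hC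
  have hp2 : 1 ≤ p ^ 2 := Nat.one_le_pow _ _ hp
  have hK : 500 ≤ K := by omega
  -- the vertex set as a finset
  let UF : Finset V := Finset.univ.biUnion fun i => (P i).support.toFinset
  have hUF : (UF : Set V) = U := by
    ext z
    rw [hU]
    simp [UF]
  have hUfin : U.Finite := hUF ▸ UF.finite_toSet
  have hcardU : U.ncard = ∑ i, ((P i).length + 1) := by
    rw [← hUF, Set.ncard_coe_finset, Finset.card_biUnion]
    · refine Finset.sum_congr rfl fun i _ => ?_
      rw [List.toFinset_card_of_nodup (hP i).support_nodup, Walk.length_support]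
    · intro i _ j _ hij
      rw [Function.onFun, Finset.disjoint_left]
      intro z hz hz'
      exact hdisj i j hij (List.mem_toFinset.1 hz) (List.mem_toFinset.1 hz')
  have hUne : U.Nonempty := ⟨x ⟨0, hp⟩, (hU _).2 ⟨⟨0, hp⟩, Walk.start_mem_support _⟩⟩
  set Y : Set V := {u | u ∈ U ∧ {w | G.Adj u w ∧ w ∈ U}.ncard < 3} with hY
  have hYfin : Y.Finite := hUfin.subset fun u hu => hu.1
  -- the vertex set is large
  have hlarge : K ≤ U.ncard := by
    by_contra hsmall
    push Not at hsmall
    have hY0 : Y.ncard = 0 := by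
      by_contra hne
      have : K * 1 ≤ K * Y.ncard := Nat.mul_le_mul_left K (by omega)
      omega
    rw [Set.ncard_eq_zero hYfin] at hY0
    have := small_case hpoor U hUfin hUne (by
      intro u hu
      by_contra hlt
      have : u ∈ Y := ⟨hu, by omega⟩
      rw [hY0] at this
      exact this)
    omega
  let L : Fin p → ℕ := fun i => (P i).length
  have hseq : ∀ i, IsPathSeq G (P i).getVert (L i) := fun i => isPathSeq_of_isPath (P i) (hP i)
  have hmem : ∀ i t, (P i).getVert t ∈ (P i).support := fun i t => (P i).getVert_mem_support t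
  have hcross : ∀ i j, i ≠ j → ∀ s ≤ L i, ∀ t ≤ L j, (P i).getVert s ≠ (P j).getVert t := by
    intro i j hij s _ t _ he
    exact hdisj i j hij (hmem i s) (he ▸ hmem j t)
  let E : Fin p → Finset (ℕ × ℕ) := fun i =>
    ((Finset.range (L i + 1)) ×ˢ (Finset.range (L i + 1))).filter
      fun e => e.1 + 2 ≤ e.2 ∧ G.Adj ((P i).getVert e.1) ((P i).getVert e.2)
  have hE : ∀ i, Valid G (P i).getVert (L i) (E i) := by
    intro i e he
    simp only [E, Finset.mem_filter, Finset.mem_product, Finset.mem_range] at he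
    exact ⟨he.2.1, by omega, he.2.2⟩
  have hbare : ∀ i, L i + 1 ≤ 78 * (bare (L i) (E i)).card := fun i =>
    many_bare (hseq i) hpoor hK (E i) (hE i)
  let Yi : Fin p → Finset ℕ := fun i =>
    (Finset.range (L i + 1)).filter fun t => (P i).getVert t ∈ Y
  let Z : Fin p → Fin p → Finset ℕ := fun i j =>
    (Finset.range (L i + 1)).filter fun t => ∃ g ≤ L j, G.Adj ((P i).getVert t) ((P j).getVert g)
  have hsub : ∀ i, bare (L i) (E i) ⊆ Yi i ∪ (Finset.univ.erase i).biUnion (Z i) := by
    intro i t ht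
    simp only [bare, Finset.mem_filter, Finset.mem_range] at ht
    obtain ⟨ht, htE⟩ := ht
    by_cases hYt : (P i).getVert t ∈ Y
    · exact Finset.mem_union_left _ (Finset.mem_filter.2 ⟨Finset.mem_range.2 ht, hYt⟩)
    refine Finset.mem_union_right _ ?_
    by_contra hno
    have hsubset : {w | G.Adj ((P i).getVert t) w ∧ w ∈ U} ⊆
        {(P i).getVert (t + 1), (P i).getVert (t - 1)} := by
      rintro w ⟨hw1, hw2⟩
      obtain ⟨j, hj⟩ := (hU w).1 hw2
      obtain ⟨g, hg, hgle⟩ := Walk.mem_support_iff_exists_getVert.1 hj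
      by_cases hij : j = i
      · subst hij
        subst hg
        by_cases h1 : g = t + 1
        · subst h1; simp
        by_cases h2 : t = g + 1
        · have : g = t - 1 := by omega
          subst this; simp
        exfalso
        have hne : g ≠ t := by
          rintro rfl
          exact hw1.ne rfl
        rcases lt_or_gt_of_ne hne with h3 | h3
        · have hmemE : (g, t) ∈ E j := by
            simp only [E, Finset.mem_filter, Finset.mem_product, Finset.mem_range]
            exact ⟨⟨by omega, by omega⟩, by omega, hw1.symm⟩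
          exact (htE _ hmemE).2 rfl
        · have hmemE : (t, g) ∈ E j := by
            simp only [E, Finset.mem_filter, Finset.mem_product, Finset.mem_range]
            exact ⟨⟨by omega, Nat.lt_succ_of_le hgle⟩, by omega, hw1⟩
          exact (htE _ hmemE).1 rfl
      · exfalso
        refine hno (Finset.mem_biUnion.2 ⟨j, Finset.mem_erase.2 ⟨hij, Finset.mem_univ _⟩, ?_⟩)
        refine Finset.mem_filter.2 ⟨Finset.mem_range.2 ht, g, hgle, ?_⟩
        rw [hg]
        exact hw1
    have h3 : 3 ≤ {w | G.Adj ((P i).getVert t) w ∧ w ∈ U}.ncard := by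
      by_contra hlt
      exact hYt ⟨(hU _).2 ⟨i, hmem i t⟩, by omega⟩
    have h4 := Set.ncard_le_ncard hsubset (Set.toFinite _)
    have h5 := Set.ncard_insert_le ((P i).getVert (t + 1)) {(P i).getVert (t - 1)}
    rw [Set.ncard_singleton] at h5
    omega
  have hcardi : ∀ i, (bare (L i) (E i)).card ≤
      (Yi i).card + ∑ j ∈ Finset.univ.erase i, (Z i j).card := by
    intro i
    refine (Finset.card_le_card (hsub i)).trans ((Finset.card_union_le _ _).trans ?_)
    exact Nat.add_le_add_left Finset.card_biUnion_le _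
  have hYsum : ∑ i, (Yi i).card ≤ Y.ncard := by
    have hYF : (hYfin.toFinset : Set V) = Y := hYfin.coe_toFinset
    rw [← hYF, Set.ncard_coe_finset, ← Finset.card_sigma]
    refine Finset.card_le_card_of_injOn (fun q => (P q.1).getVert q.2) ?_ ?_
    · rintro ⟨i, t⟩ hq
      simp only [Finset.coe_sigma, Set.mem_sigma_iff, Finset.mem_coe] at hq
      have := (Finset.mem_filter.1 hq.2).2
      simpa using this
    · rintro ⟨i, t⟩ hq ⟨j, s⟩ hq' he
      simp only [Finset.coe_sigma, Set.mem_sigma_iff, Finset.mem_coe] at hq hq'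
      have h1 := Finset.mem_range.1 (Finset.mem_filter.1 hq.2).1
      have h2 := Finset.mem_range.1 (Finset.mem_filter.1 hq'.2).1
      simp only at he
      by_cases hij : i = j
      · subst hij
        have := (hseq i).inj t (by omega) s (by omega) he
        subst this
        rfl
      · exact absurd he (hcross i j hij t (by omega) s (by omega))
  have hZ : ∀ i, ∀ j ∈ Finset.univ.erase i,
      K * (Z i j).card ≤ 4 * K + 6 * ((L i + 1) + (L j + 1)) := by
    intro i j hj
    have hij : i ≠ j := fun he => (Finset.mem_erase.1 hj).1 he.symm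
    have := cross_bound (hseq i) (hseq j) (hcross i j hij) hpoor (Z i j) (by
      intro s hs
      obtain ⟨h1, h2⟩ := Finset.mem_filter.1 hs
      exact ⟨by have := Finset.mem_range.1 h1; omega, h2⟩)
    omega
  -- summation
  obtain ⟨q, rfl⟩ : ∃ q, p = q + 1 := ⟨p - 1, by omega⟩
  set n := U.ncard with hn
  have hA : n ≤ 78 * (∑ i, (Yi i).card + ∑ i, ∑ j ∈ Finset.univ.erase i, (Z i j).card) := by
    rw [hcardU, ← Finset.sum_add_distrib, Finset.mul_sum]
    refine Finset.sum_le_sum fun i _ => ?_
    exact (hbare i).trans (Nat.mul_le_mul_left 78 (hcardi i))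
  have hB : K * ∑ i, ∑ j ∈ Finset.univ.erase i, (Z i j).card ≤
      4 * K * (q * (q + 1)) + 6 * ∑ i, ∑ j ∈ Finset.univ.erase i, ((L i + 1) + (L j + 1)) := by
    rw [Finset.mul_sum, Finset.mul_sum]
    have hconst : 4 * K * (q * (q + 1)) = ∑ _i : Fin (q + 1), 4 * K * q := by
      rw [Finset.sum_const, Finset.card_univ, Fintype.card_fin, smul_eq_mul]
      ring
    rw [hconst, ← Finset.sum_add_distrib]
    refine Finset.sum_le_sum fun i _ => ?_
    rw [Finset.mul_sum, Finset.mul_sum]
    have hconst' : 4 * K * q = ∑ _j ∈ Finset.univ.erase i, 4 * K := by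
      rw [Finset.sum_const, Finset.card_erase_of_mem (Finset.mem_univ _), Finset.card_univ,
        Fintype.card_fin, smul_eq_mul]
      simp only [Nat.add_sub_cancel]
      ring
    rw [hconst', ← Finset.sum_add_distrib]
    exact Finset.sum_le_sum fun j hj => hZ i j hj
  have hC : ∑ i, ∑ j ∈ Finset.univ.erase i, ((L i + 1) + (L j + 1)) + n = (2 * q + 1) * n := by
    have h1 : ∀ i, ∑ j ∈ Finset.univ.erase i, ((L i + 1) + (L j + 1)) + (L i + 1) =
        q * (L i + 1) + n := by
      intro i
      rw [Finset.sum_add_distrib, Finset.sum_const,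
        Finset.card_erase_of_mem (Finset.mem_univ _), Finset.card_univ, Fintype.card_fin,
        smul_eq_mul, Nat.add_sub_cancel, add_assoc,
        Finset.sum_erase_add _ _ (Finset.mem_univ i)]
      rw [hcardU]
    have h2 : n = ∑ i, (L i + 1) := hcardU
    calc ∑ i, ∑ j ∈ Finset.univ.erase i, ((L i + 1) + (L j + 1)) + n
        = ∑ i, ∑ j ∈ Finset.univ.erase i, ((L i + 1) + (L j + 1)) + ∑ i, (L i + 1) := by
          rw [← h2]
      _ = ∑ i, (q * (L i + 1) + n) := by
          rw [← Finset.sum_add_distrib]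
          exact Finset.sum_congr rfl fun i _ => h1 i
      _ = (2 * q + 1) * n := by
          rw [Finset.sum_add_distrib, ← Finset.mul_sum, ← h2, Finset.sum_const,
            Finset.card_univ, Fintype.card_fin, smul_eq_mul]
          ring
  have hD : ∑ i, ∑ j ∈ Finset.univ.erase i, ((L i + 1) + (L j + 1)) = 2 * q * n := by
    have : (2 * q + 1) * n = 2 * q * n + n := by ring
    omega
  rw [hD] at hB
  have hF : K * n ≤ 78 * (n + (4 * K * (q * (q + 1)) + 6 * (2 * q * n))) := by
    calc K * n ≤ K * (78 * (∑ i, (Yi i).card +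
          ∑ i, ∑ j ∈ Finset.univ.erase i, (Z i j).card)) := Nat.mul_le_mul_left K hA
      _ = 78 * (K * ∑ i, (Yi i).card + K * ∑ i, ∑ j ∈ Finset.univ.erase i, (Z i j).card) := by
          ring
      _ ≤ 78 * (n + (4 * K * (q * (q + 1)) + 6 * (2 * q * n))) := by
          have h1 : K * ∑ i, (Yi i).card ≤ n := (Nat.mul_le_mul_left K hYsum).trans hexc
          exact Nat.mul_le_mul_left 78 (Nat.add_le_add h1 hB)
  have hG : K * n ≤ 78 * (1 + 4 * (q * (q + 1)) + 12 * q) * n := by
    have h1 : 4 * K * (q * (q + 1)) ≤ 4 * n * (q * (q + 1)) := by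
      have := Nat.mul_le_mul_left 4 hlarge
      exact Nat.mul_le_mul_right _ this
    calc K * n ≤ 78 * (n + (4 * K * (q * (q + 1)) + 6 * (2 * q * n))) := hF
      _ ≤ 78 * (n + (4 * n * (q * (q + 1)) + 6 * (2 * q * n))) := by
          refine Nat.mul_le_mul_left 78 ?_
          omega
      _ = 78 * (1 + 4 * (q * (q + 1)) + 12 * q) * n := by ring
  have hnpos : 0 < n := by omega
  have hH : K ≤ 78 * (1 + 4 * (q * (q + 1)) + 12 * q) := Nat.le_of_mul_le_mul_right hG hnpos
  rw [hKdef] at hH
  nlinarith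

/-- The case in which the paths cover all vertices of a graph of minimum degree at least three
(a check that the hypotheses of `result` are the intended ones). -/
theorem spanning_case {V : Type*} (G : SimpleGraph V) {p : ℕ} (hp : 0 < p) {x y : Fin p → V}
    (P : ∀ i, G.Walk (x i) (y i)) (hP : ∀ i, (P i).IsPath)
    (hdisj : ∀ i j, i ≠ j → List.Disjoint (P i).support (P j).support)
    (hspan : ∀ z, ∃ i, z ∈ (P i).support) (hdeg : ∀ u, 3 ≤ (G.neighborSet u).ncard) :
    ∃ (u : V) (C : G.Walk u u), C.IsCycle ∧ C.length ≤ 500 * p ^ 2 * (chords G C).ncard := by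
  refine result G hp P hP hdisj Set.univ (fun z => by simpa using hspan z) ?_
  have : {u | u ∈ Set.univ ∧ {w | G.Adj u w ∧ w ∈ Set.univ}.ncard < 3} = ∅ := by
    ext u
    have h := hdeg u
    simp only [Set.mem_univ, true_and, and_true, Set.mem_ofPred_eq, Set.mem_empty_iff_false,
      iff_false, not_lt]
    exact h
  rw [this]
  simp

end Pool.Agent.Results.MP_9cdbe4_co.BoundedPathCover
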