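import Pool.Agent.H5.CHD.Final

/-!
# Graphs of minimum degree three in which every cycle has few chords

For every `c > 0` there is a finite simple graph `G` with minimum degree (exactly) three in which
every cycle of length `ℓ` has fewer than `c ℓ` chords.  This disproves the statement that there is
an absolute constant `c > 0` such that every graph of minimum degree three has a cycle `C` with at
least `c |C|` chords.
-/

namespace Pool.Agent.Results.MP_9cdbe4_co.FewChords

theorem result (c : ℝ) (hc : 0 < c) :
    ∃ (V : Type) (_ : Fintype V) (G : SimpleGraph V) (_ : DecidableRel G.Adj), G.minDegree = 3 ∧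
      ∀ (u : V) (C : G.Walk u u), C.IsCycle →
        (({e | e ∈ G.edgeSet ∧ e ∉ C.edges ∧ ∀ z ∈ e, z ∈ C.support} :
          Set (Sym2 V)).ncard : ℝ) < c * (C.length : ℝ) :=
  Pool.Agent.H5.CHD.main c hc

end Pool.Agent.Results.MP_9cdbe4_co.FewChords
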